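import Pool.Agent.H43.CE.Defs

/-!
# CE, job C-CardMon : the number of exponent vectors

`Mon I top ν` is the set of `m : Fin n → ℕ` supported in the union of the intervals `[c, top c]` (`c ∈ I`, pairwise disjoint) with `∑_{c ≤ j ≤ top c} m j = ν c` for all `c ∈ I` (the bound `m j ≤ ∑ ν` in `piFinset` is automatic).
So it is in bijection with the product over `c ∈ I` of the sets of functions on `[c, top c]` (which has `top c - c + 1` elements) with sum `ν c`; the number of these is `(ν c + d).choose d`, `d = top c - c` (stars and bars: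
`Finset.card_finsuppAntidiag`, `Sym.card_sym_eq_choose`, `Finset.card_piAntidiag` or `Nat.multichoose`).
Possible proof: induction on `I` (for `insert c I`: `m ↦ (m restricted to [c, top c], m set to zero on [c, top c])`), or a direct `Finset.card_bij` with `Finset.pi`.  The hypotheses `h1`, `h2` are inherited by subsets of `I`.
-/

open MvPolynomial

noncomputable section

namespace CE

open CMT

variable {n : ℕ}

theorem mem_Mon {I : Finset (Fin n)} {top ν m : Fin n → ℕ} : m ∈ Mon I top ν ↔
    (∀ j, m j ≠ 0 → ∃ c ∈ I, c ≤ j ∧ j.val ≤ top c) ∧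
    ∀ c ∈ I, ∑ j ∈ Finset.univ.filter (fun j : Fin n => c ≤ j ∧ j.val ≤ top c), m j = ν c := by
  unfold Mon
  refine (@Finset.mem_filter _ _ (Classical.decPred _) _ _).trans ?_
  refine ⟨fun h => h.2, fun h => ⟨?_, h⟩⟩
  rw [Fintype.mem_piFinset]
  intro j
  rw [Finset.mem_range]
  by_cases hj : m j = 0
  · omega
  · obtain ⟨c, hc, h1, h2⟩ := h.1 j hj
    have h3 : m j ≤ ν c := by
      rw [← h.2 c hc]
      exact Finset.single_le_sum (f := m) (fun _ _ => Nat.zero_le _)
        (Finset.mem_filter.2 ⟨Finset.mem_univ _, h1, h2⟩)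
    have h4 : ν c ≤ ∑ c ∈ I, ν c :=
      Finset.single_le_sum (f := ν) (fun _ _ => Nat.zero_le _) hc
    omega

/-- the interval of `c` -/
def CardMon_B (top : Fin n → ℕ) (c : Fin n) : Finset (Fin n) :=
  Finset.univ.filter (fun j : Fin n => c ≤ j ∧ j.val ≤ top c)

theorem CardMon_memB {top : Fin n → ℕ} {c j : Fin n} :
    j ∈ CardMon_B top c ↔ c ≤ j ∧ j.val ≤ top c := by
  unfold CardMon_B
  rw [Finset.mem_filter]
  exact ⟨fun h => h.2, fun h => ⟨Finset.mem_univ _, h⟩⟩

theorem CardMon_cardB {top : Fin n → ℕ} {c : Fin n} (h1 : c.val ≤ top c ∧ top c < n) :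
    (CardMon_B top c).card = top c - c.val + 1 := by
  have h : CardMon_B top c = Finset.Icc c ⟨top c, h1.2⟩ := by
    ext j
    rw [CardMon_memB, Finset.mem_Icc, Fin.le_def, Fin.le_def]
  have h3 := h1.1
  rw [h, Fin.card_Icc]
  show top c + 1 - c.val = top c - c.val + 1
  omega

theorem CardMon_disj {I : Finset (Fin n)} {top : Fin n → ℕ}
    (h2 : ∀ c ∈ I, ∀ c' ∈ I, c < c' → top c < c'.val) {c c' j : Fin n} (hc : c ∈ I)
    (hc' : c' ∈ I) (hj : j ∈ CardMon_B top c) (hj' : j ∈ CardMon_B top c') : c = c' := by
  rw [CardMon_memB, Fin.le_def] at hj hj'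
  rcases lt_trichotomy c c' with h | h | h
  · have := h2 c hc c' hc' h
    omega
  · exact h
  · have := h2 c' hc' c hc h
    omega

theorem CardMon_mem {I : Finset (Fin n)} {top ν m : Fin n → ℕ} : m ∈ Mon I top ν ↔
    (∀ j, m j ≠ 0 → ∃ c ∈ I, j ∈ CardMon_B top c) ∧
    ∀ c ∈ I, ∑ j ∈ CardMon_B top c, m j = ν c := by
  rw [mem_Mon]
  simp only [CardMon_memB]
  rfl

theorem CardMon_anti (s : Finset (Fin n)) (k d : ℕ) (hs : s.card = d + 1) :
    (s.piAntidiag k).card = (k + d).choose d := by
  have h0 : (s.piAntidiag k).card = (s.finsuppAntidiag k).card := by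
    rw [Finset.finsuppAntidiag, Finset.card_map, Finset.card_attach]
  rw [h0, Finset.card_finsuppAntidiag_nat_eq_choose, hs]
  have h : d + 1 + k - 1 = k + d := by omega
  rw [h]
  exact (Nat.choose_symm_add).trans rfl

theorem card_Mon (I : Finset (Fin n)) (top ν : Fin n → ℕ)
    (h1 : ∀ c ∈ I, c.val ≤ top c ∧ top c < n) (h2 : ∀ c ∈ I, ∀ c' ∈ I, c < c' → top c < c'.val) :
    (Mon I top ν).card = ∏ c ∈ I, (ν c + (top c - c.val)).choose (top c - c.val) := by
  classical
  induction I using Finset.induction_on with
  | empty =>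
    rw [Finset.prod_empty, Finset.card_eq_one]
    refine ⟨0, ?_⟩
    ext m
    rw [CardMon_mem, Finset.mem_singleton]
    constructor
    · rintro ⟨h, -⟩
      funext j
      by_contra hj
      obtain ⟨c, hc, -⟩ := h j hj
      exact absurd hc (Finset.notMem_empty _)
    · rintro rfl
      exact ⟨fun j hj => absurd rfl hj, fun c hc => absurd hc (Finset.notMem_empty _)⟩
  | insert c I hcI ih =>
    have ih' := ih (fun a ha => h1 a (Finset.mem_insert_of_mem ha))
      (fun a ha b hb => h2 a (Finset.mem_insert_of_mem ha) b (Finset.mem_insert_of_mem hb))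
    rw [Finset.prod_insert hcI, ← ih',
      ← CardMon_anti (CardMon_B top c) (ν c) (top c - c.val)
        (CardMon_cardB (h1 c (Finset.mem_insert_self _ _))), ← Finset.card_product]
    have hd : ∀ a ∈ I, ∀ j, j ∈ CardMon_B top a → j ∉ CardMon_B top c := by
      intro a ha j hj hj'
      have := CardMon_disj h2 (Finset.mem_insert_of_mem ha) (Finset.mem_insert_self _ _) hj hj'
      rw [this] at ha
      exact hcI ha
    refine Finset.card_nbij'
      (fun m => ((fun j => if j ∈ CardMon_B top c then m j else 0),
        (fun j => if j ∈ CardMon_B top c then 0 else m j)))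
      (fun p j => p.1 j + p.2 j) ?_ ?_ ?_ ?_
    · intro m hm
      rw [Finset.mem_coe, CardMon_mem] at hm
      rw [Finset.mem_coe, Finset.mem_product, Finset.mem_piAntidiag, CardMon_mem]
      refine ⟨⟨?_, ?_⟩, ?_, ?_⟩
      · rw [← hm.2 c (Finset.mem_insert_self _ _)]
        exact Finset.sum_congr rfl fun j hj => if_pos hj
      · intro j hj
        by_contra h
        exact hj (if_neg h)
      · intro j hj
        have hjc : j ∉ CardMon_B top c := fun h => hj (if_pos h)
        have hj' : m j ≠ 0 := fun h => hj (by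
          show (if j ∈ CardMon_B top c then 0 else m j) = 0
          rw [if_neg hjc, h])
        obtain ⟨a, ha, haj⟩ := hm.1 j hj'
        rcases Finset.mem_insert.1 ha with rfl | ha
        · exact absurd haj hjc
        · exact ⟨a, ha, haj⟩
      · intro a ha
        rw [← hm.2 a (Finset.mem_insert_of_mem ha)]
        exact Finset.sum_congr rfl fun j hj => if_neg (hd a ha j hj)
    · rintro ⟨f, g⟩ hp
      rw [Finset.mem_coe, Finset.mem_product, Finset.mem_piAntidiag, CardMon_mem] at hp
      obtain ⟨⟨hf1, hf2⟩, hg1, hg2⟩ := hp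
      simp only at hf1 hf2 hg1 hg2
      rw [Finset.mem_coe, CardMon_mem]
      refine ⟨?_, ?_⟩
      · intro j hj
        simp only at hj
        by_cases h : f j = 0
        · obtain ⟨a, ha, haj⟩ := hg1 j (by omega)
          exact ⟨a, Finset.mem_insert_of_mem ha, haj⟩
        · exact ⟨c, Finset.mem_insert_self _ _, hf2 j h⟩
      · intro a ha
        simp only [Finset.sum_add_distrib]
        rcases Finset.mem_insert.1 ha with rfl | ha
        · rw [hf1]
          have : ∑ j ∈ CardMon_B top a, g j = 0 := by
            refine Finset.sum_eq_zero fun j hj => ?_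
            by_contra h
            obtain ⟨b, hb, hbj⟩ := hg1 j h
            exact hd b hb j hbj hj
          rw [this, Nat.add_zero]
        · rw [hg2 a ha]
          have : ∑ j ∈ CardMon_B top a, f j = 0 := by
            refine Finset.sum_eq_zero fun j hj => ?_
            by_contra h
            exact hd a ha j hj (hf2 j h)
          rw [this, Nat.zero_add]
    · intro m _
      funext j
      by_cases h : j ∈ CardMon_B top c
      · simp only [if_pos h, Nat.add_zero]
      · simp only [if_neg h, Nat.zero_add]
    · rintro ⟨f, g⟩ hp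
      rw [Finset.mem_coe, Finset.mem_product, Finset.mem_piAntidiag, CardMon_mem] at hp
      obtain ⟨⟨hf1, hf2⟩, hg1, hg2⟩ := hp
      simp only at hf1 hf2 hg1 hg2
      have hf0 : ∀ j, j ∉ CardMon_B top c → f j = 0 := by
        intro j hj
        by_contra h
        exact hj (hf2 j h)
      have hg0 : ∀ j, j ∈ CardMon_B top c → g j = 0 := by
        intro j hj
        by_contra h
        obtain ⟨b, hb, hbj⟩ := hg1 j h
        exact hd b hb j hbj hj
      refine Prod.ext ?_ ?_
      · funext j
        by_cases h : j ∈ CardMon_B top c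
        · simp only [if_pos h, hg0 j h, Nat.add_zero]
        · simp only [if_neg h, hf0 j h]
      · funext j
        by_cases h : j ∈ CardMon_B top c
        · simp only [if_pos h, hg0 j h]
        · simp only [if_neg h, hf0 j h, Nat.zero_add]

end CE
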