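import Pool.Agent.H43.CE.C.LowRel
import Pool.Agent.H43.CE.C.CardMon
import Pool.Agent.H43.CE.I.Gens

/-!
# CE, job C-Bad : the superfluous generators

`MU = Mon I (fun c => (u c).val) ν`, `Al = Mon I (fun c => min (u c).val (mx w⁻¹ c)) ν`.
* `al_subset` : `Al ⊆ MU`: support clear; for `c ∈ I` the sum over `c ≤ j ≤ u c` equals the sum over `c ≤ j ≤ min ..`: if `m j ≠ 0` and `c ≤ j ≤ u c` then by the support condition of `Al` `j` is in some `[c', min ..]`,
  `c' ∈ I`, and `c' = c` (intervals `[c, u c]` are disjoint: `c < c'` gives `u c < c'` by `Pres`).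
* `exists_bad` : `m ∈ MU`, `m ∉ Al`: some `j`, `c ∈ I` with `m j ≠ 0`, `c ≤ j ≤ u c`, `mx w⁻¹ c < j` (otherwise `m` satisfies both conditions of `Al`).
* `bad_gen` : let `j, c` as in `exists_bad`, `g` from `low_rel`.  `m j ≥ 1`; for `j' ∈ Icc c (u c)` let `m_{j'} = m - e_j + e_{j'}` (`Function.update` or `fun i => m i - (if i = j then 1 else 0) + (if i = j' then 1 else 0)`), an element of `MU`.
  `xm m = mk (xx j) * xm (m - e_j) = ∑_{j' ∈ Icc} psi (mk (g j')) * xm m_{j'}`.  By `isF_sum`, `isF_unique`: `F m = ∑_{j'} mk (g j') * F m_{j'}`.  Put `r m' = ∑_{j' ∈ Icc, m_{j'} = m'} mk (g j')`, in `orig (SS 1 v)`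
  (`mk` maps `span (range X)` into `orig`), `Finset.sum_fiberwise_of_maps_to`.
-/

open MvPolynomial

noncomputable section

namespace CE

open CMT

variable {n : ℕ} {I : Finset (Fin n)} {u w : Equiv.Perm (Fin n)} {ν : Fin n → ℕ} {H : Fin n → ℤ}

/-- the intervals `[c, u c]` are disjoint -/
theorem Bad_disj (hp : Pres I u) {c c' j : Fin n} (hc : c ∈ I) (hc' : c' ∈ I) (h1 : c ≤ j)
    (h2 : j ≤ u c) (h1' : c' ≤ j) (h2' : j ≤ u c') : c' = c := by
  rcases lt_trichotomy c' c with h | h | h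
  · exact absurd (lt_of_le_of_lt h2' (hp c hc c' h)) (not_lt.2 h1)
  · exact h
  · exact absurd (lt_of_le_of_lt h2 (hp c' hc' c h)) (not_lt.2 h1')

theorem Bad_sum (c : Fin n) {m : Fin n → ℕ}
    (h : ∀ j, m j ≠ 0 → c ≤ j → j ≤ u c → j.val ≤ mx w⁻¹ c) :
    ∑ j ∈ Finset.univ.filter (fun j : Fin n => c ≤ j ∧ j.val ≤ min (u c).val (mx w⁻¹ c)), m j =
      ∑ j ∈ Finset.univ.filter (fun j : Fin n => c ≤ j ∧ j.val ≤ (u c).val), m j := by
  refine Finset.sum_subset ?_ ?_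
  · intro j hj
    rw [Finset.mem_filter] at hj ⊢
    exact ⟨hj.1, hj.2.1, hj.2.2.trans (min_le_left _ _)⟩
  · intro j hj hj'
    by_contra h0
    rw [Finset.mem_filter] at hj hj'
    exact hj' ⟨hj.1, hj.2.1, le_min hj.2.2 (h j h0 hj.2.1 (Fin.le_def.2 hj.2.2))⟩

theorem al_subset (hp : Pres I u) :
    Mon I (fun c => min (u c).val (mx w⁻¹ c)) ν ⊆ Mon I (fun c => (u c).val) ν := by
  intro m hm
  rw [mem_Mon] at hm ⊢
  obtain ⟨h1, h2⟩ := hm
  refine ⟨fun j hj => ?_, fun c hc => ?_⟩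
  · obtain ⟨c, hc, h3, h4⟩ := h1 j hj
    exact ⟨c, hc, h3, h4.trans (min_le_left _ _)⟩
  · rw [← h2 c hc]
    symm
    refine Bad_sum c fun j hj hcj hju => ?_
    obtain ⟨c', hc', h3, h4⟩ := h1 j hj
    have h5 : c' = c := Bad_disj hp hc hc' hcj hju h3 (Fin.le_def.2 (h4.trans (min_le_left _ _)))
    rw [h5] at h4
    exact h4.trans (min_le_right _ _)

theorem exists_bad (hp : Pres I u) {m : Fin n → ℕ} (hm : m ∈ Mon I (fun c => (u c).val) ν)
    (hm' : m ∉ Mon I (fun c => min (u c).val (mx w⁻¹ c)) ν) :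
    ∃ j, ∃ c ∈ I, m j ≠ 0 ∧ c ≤ j ∧ j ≤ u c ∧ mx w⁻¹ c < j.val := by
  by_contra hcon
  push Not at hcon
  apply hm'
  rw [mem_Mon] at hm ⊢
  obtain ⟨h1, h2⟩ := hm
  refine ⟨fun j hj => ?_, fun c hc => ?_⟩
  · obtain ⟨c, hc, h3, h4⟩ := h1 j hj
    exact ⟨c, hc, h3, le_min h4 (hcon j c hc hj h3 (Fin.le_def.2 h4))⟩
  · rw [← h2 c hc]
    exact Bad_sum c fun j hj hcj hju => hcon j c hc hj hcj hju

/-- multiplication by one coordinate -/
theorem Bad_xm (m : Fin n → ℕ) (a : Fin n) :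
    xm I u w (fun i => m i + if i = a then 1 else 0) =
      Ideal.Quotient.mk _ (xx a) * xm I u w m := by
  unfold xm
  simp only [pow_add, Finset.prod_mul_distrib]
  rw [mul_comm]
  congr 1
  rw [Finset.prod_eq_single a]
  · rw [if_pos rfl, pow_one]
  · intro i _ hi
    rw [if_neg hi, pow_zero]
  · intro h
    exact absurd (Finset.mem_univ a) h

/-- move one unit of the exponent from `j` to `j'` -/
def Bad_ms (m : Fin n → ℕ) (j j' : Fin n) : Fin n → ℕ :=
  fun i => (m i - if i = j then 1 else 0) + if i = j' then 1 else 0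

theorem Bad_ms_mem (hp : Pres I u) {m : Fin n → ℕ} (hm : m ∈ Mon I (fun c => (u c).val) ν)
    {c j j' : Fin n} (hc : c ∈ I) (hj : m j ≠ 0) (h1 : c ≤ j) (h2 : j ≤ u c) (h1' : c ≤ j')
    (h2' : j' ≤ u c) : Bad_ms m j j' ∈ Mon I (fun c => (u c).val) ν := by
  rw [mem_Mon] at hm ⊢
  obtain ⟨h3, h4⟩ := hm
  refine ⟨fun i hi => ?_, fun c' hc' => ?_⟩
  · by_cases hij : i = j'
    · exact ⟨c, hc, hij ▸ h1', Fin.le_def.1 (hij ▸ h2')⟩
    · refine h3 i fun h0 => hi ?_
      unfold Bad_ms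
      rw [h0, if_neg hij]
      omega
  · have h5 : ∀ i, Bad_ms m j j' i + (if i = j then 1 else 0) = m i + if i = j' then 1 else 0 := by
      intro i
      unfold Bad_ms
      by_cases hij : i = j
      · rw [if_pos hij, hij]
        omega
      · rw [if_neg hij]
        omega
    have h6 := Finset.sum_congr (rfl : Finset.univ.filter
      (fun j : Fin n => c' ≤ j ∧ j.val ≤ (u c').val) = _) fun i _ => h5 i
    rw [Finset.sum_add_distrib, Finset.sum_add_distrib, h4 c' hc', Finset.sum_ite_eq',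
      Finset.sum_ite_eq'] at h6
    have h7 : (j ∈ Finset.univ.filter (fun j : Fin n => c' ≤ j ∧ j.val ≤ (u c').val)) ↔
        (j' ∈ Finset.univ.filter (fun j : Fin n => c' ≤ j ∧ j.val ≤ (u c').val)) := by
      rw [Finset.mem_filter, Finset.mem_filter]
      constructor
      · rintro ⟨-, h8, h9⟩
        rw [Bad_disj hp hc hc' h1 h2 h8 (Fin.le_def.2 h9)]
        exact ⟨Finset.mem_univ _, h1', Fin.le_def.1 h2'⟩
      · rintro ⟨-, h8, h9⟩
        rw [Bad_disj hp hc hc' h1' h2' h8 (Fin.le_def.2 h9)]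
        exact ⟨Finset.mem_univ _, h1, Fin.le_def.1 h2⟩
    rw [if_congr h7 rfl rfl] at h6
    exact add_right_cancel h6

theorem Bad_orig {v : Equiv.Perm (Fin n)} {f : MvPolynomial (Low n) ℂ}
    (hf : f ∈ Ideal.span (Set.range (X : Low n → MvPolynomial (Low n) ℂ))) :
    Ideal.Quotient.mk (VI (SS 1 v)) f ∈ orig (SS 1 v) := by
  have h1 := Ideal.mem_map_of_mem (Ideal.Quotient.mk (VI (SS 1 v))) hf
  rw [Ideal.map_span, ← Set.range_comp] at h1
  exact h1

theorem bad_gen (had : AD u w) (hp : Pres I u) {F : (Fin n → ℕ) → CR (SS 1 (u * w))}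
    (hF : ∀ m ∈ Mon I (fun c => (u c).val) ν, IsF I u w ν H (F m) (xm I u w m))
    {m : Fin n → ℕ} (hm : m ∈ Mon I (fun c => (u c).val) ν)
    (hm' : m ∉ Mon I (fun c => min (u c).val (mx w⁻¹ c)) ν) :
    ∃ r : (Fin n → ℕ) → CR (SS 1 (u * w)), (∀ m', r m' ∈ orig (SS 1 (u * w))) ∧
      F m = ∑ m' ∈ Mon I (fun c => (u c).val) ν, r m' * F m' := by
  classical
  obtain ⟨j, c, hc, hj, h1, h2, h3⟩ := exists_bad hp hm hm'
  obtain ⟨g, hg, hrel⟩ := low_rel (w := w) hp hc h1 h2 h3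
  have hms : ∀ j' ∈ Finset.Icc c (u c),
      Bad_ms m j j' ∈ Mon I (fun c => (u c).val) ν := by
    intro j' hj'
    rw [Finset.mem_Icc] at hj'
    exact Bad_ms_mem hp hm hc hj h1 h2 hj'.1 hj'.2
  have hx : ∑ j' ∈ Finset.Icc c (u c), psi I u w (Ideal.Quotient.mk _ (g j')) *
      xm I u w (Bad_ms m j j') = xm I u w m := by
    have h4 : xm I u w m = Ideal.Quotient.mk _ (xx j) *
        xm I u w (fun i => m i - if i = j then 1 else 0) := by
      rw [← Bad_xm]
      congr 1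
      funext i
      by_cases hij : i = j
      · rw [if_pos hij, hij]
        omega
      · rw [if_neg hij]
        omega
    rw [h4, hrel, Finset.sum_mul]
    refine Finset.sum_congr rfl fun j' _ => ?_
    unfold Bad_ms
    rw [Bad_xm, psi_mk, mul_assoc]
  have hsum := isF_sum (ν := ν) (H := H) (Finset.Icc c (u c))
    (fun j' => Ideal.Quotient.mk (VI (SS 1 (u * w))) (g j')) (fun j' => F (Bad_ms m j j'))
    (fun j' => xm I u w (Bad_ms m j j')) (fun j' hj' => hF _ (hms j' hj'))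
  rw [hx] at hsum
  have hFm := isF_unique had hp (hF m hm) hsum
  refine ⟨fun m' => ∑ j' ∈ (Finset.Icc c (u c)).filter (fun j' => Bad_ms m j j' = m'),
    Ideal.Quotient.mk (VI (SS 1 (u * w))) (g j'), fun m' => ?_, ?_⟩
  · exact Ideal.sum_mem _ fun j' _ => Bad_orig (hg j')
  · rw [hFm, ← Finset.sum_fiberwise_of_maps_to hms]
    refine Finset.sum_congr rfl fun m' _ => ?_
    rw [Finset.sum_mul]
    refine Finset.sum_congr rfl fun j' hj' => ?_
    rw [(Finset.mem_filter.1 hj').2]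

end CE
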