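import Mathlib

/-!
# CE, job C-Cnt : dimension of `N / 𝔪 N` from generators

`V = N ⧸ 𝔪 • ⊤`.  The classes `e m` of `F m`, `m ∈ Al`, form a basis of `V` over `ℂ`.
* spanning: `x ∈ N`: `x = ∑_{m ∈ MU} r m * F m`, `r m = algebraMap (c m) + s m`, `s m ∈ 𝔪`, so the class of `x` is `∑ c m • [F m]`; for `m ∉ Al`: `[F m] = 0` by `hbad` (`r m' * F m' ∈ 𝔪 • N`).
* independence: `∑_{m ∈ Al} a m • [F m] = 0` means `∑ algebraMap (a m) * F m ∈ 𝔪 • ⊤`, so it is a sum of `s_i * x_i`, `s_i ∈ 𝔪`, `x_i ∈ N = span (F m)`; so equal to `∑_{m ∈ MU} r m * F m` with `r m ∈ 𝔪` (induction `Submodule.smul_induction_on`);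
  `hind`.
* `Module.finrank_eq_card_basis` with the index type `Al`.
-/

noncomputable section

namespace CE

theorem finrank_of_gens {R : Type} [CommRing R] [Algebra ℂ R] (𝔪 : Ideal R)
    (h𝔪 : ∀ r : R, ∃ a : ℂ, r - algebraMap ℂ R a ∈ 𝔪) (N : Ideal R) {κ : Type}
    (MU Al : Finset κ) (hAl : Al ⊆ MU) (F : κ → R) (hF : ∀ m ∈ MU, F m ∈ N)
    (hspan : ∀ x ∈ N, ∃ r : κ → R, x = ∑ m ∈ MU, r m * F m)
    (hbad : ∀ m ∈ MU, m ∉ Al → ∃ r : κ → R, (∀ m', r m' ∈ 𝔪) ∧ F m = ∑ m' ∈ MU, r m' * F m')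
    (hind : ∀ (a : κ → ℂ) (r : κ → R), (∀ m, r m ∈ 𝔪) →
      ∑ m ∈ Al, algebraMap ℂ R (a m) * F m = ∑ m ∈ MU, r m * F m → ∀ m ∈ Al, a m = 0) :
    Module.finrank ℂ (N ⧸ (𝔪 • (⊤ : Submodule R N))) = Al.card := by
  classical
  obtain ⟨F', hF'⟩ : ∃ F' : κ → N, ∀ m ∈ MU, ((F' m : N) : R) = F m := by
    refine ⟨fun m => if h : m ∈ MU then ⟨F m, hF m h⟩ else 0, fun m hm => ?_⟩
    simp only [dif_pos hm]
  have hsum : ∀ r : κ → R, (((∑ m ∈ MU, r m • F' m : N)) : R) = ∑ m ∈ MU, r m * F m := by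
    intro r
    rw [Submodule.coe_sum]
    refine Finset.sum_congr rfl fun m hm => ?_
    rw [Submodule.coe_smul, smul_eq_mul, hF' m hm]
  have hmemP : ∀ (r : κ → R), (∀ m, r m ∈ 𝔪) →
      (∑ m ∈ MU, r m • F' m : N) ∈ (𝔪 • (⊤ : Submodule R N)) := fun r hr =>
    Submodule.sum_mem _ fun m _ => Submodule.smul_mem_smul (hr m) Submodule.mem_top
  have hP : ∀ y : N, y ∈ (𝔪 • (⊤ : Submodule R N)) →
      ∃ r : κ → R, (∀ m, r m ∈ 𝔪) ∧ (y : R) = ∑ m ∈ MU, r m * F m := by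
    intro y hy
    refine Submodule.smul_induction_on hy ?_ ?_
    · intro s hs z _
      obtain ⟨r, hr⟩ := hspan z z.2
      refine ⟨fun m => s * r m, fun m => 𝔪.mul_mem_right _ hs, ?_⟩
      rw [Submodule.coe_smul, smul_eq_mul, hr, Finset.mul_sum]
      exact Finset.sum_congr rfl fun m _ => by ring
    · rintro y z ⟨r, hr, e⟩ ⟨r', hr', e'⟩
      refine ⟨fun m => r m + r' m, fun m => 𝔪.add_mem (hr m) (hr' m), ?_⟩
      rw [Submodule.coe_add, e, e', ← Finset.sum_add_distrib]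
      exact Finset.sum_congr rfl fun m _ => by ring
  obtain ⟨q, hq⟩ : ∃ q : N →ₗ[R] (N ⧸ (𝔪 • (⊤ : Submodule R N))),
      q = (𝔪 • (⊤ : Submodule R N)).mkQ := ⟨_, rfl⟩
  have hq0 : ∀ y : N, q y = 0 ↔ y ∈ (𝔪 • (⊤ : Submodule R N)) := by
    intro y
    rw [hq, Submodule.mkQ_apply, Submodule.Quotient.mk_eq_zero]
  have hqs : Function.Surjective q := by
    rw [hq]
    exact Submodule.mkQ_surjective _
  have hbad' : ∀ m ∈ MU, m ∉ Al → q (F' m) = 0 := by
    intro m hm hmA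
    obtain ⟨r, hr, e⟩ := hbad m hm hmA
    rw [hq0]
    have e1 : F' m = ∑ m' ∈ MU, r m' • F' m' := by
      apply Subtype.ext
      rw [hsum, hF' m hm, e]
    rw [e1]
    exact hmemP r hr
  have hli : LinearIndependent ℂ (fun m : Al => q (F' m)) := by
    rw [Fintype.linearIndependent_iff]
    intro g hg
    obtain ⟨a, ha⟩ : ∃ a : κ → ℂ, ∀ i : Al, a i = g i :=
      ⟨fun m => if h : m ∈ Al then g ⟨m, h⟩ else 0, fun i => by simp only [dif_pos i.2]⟩
    have e1 : q (∑ m ∈ Al, algebraMap ℂ R (a m) • F' m) = 0 := by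
      rw [map_sum, ← hg, ← Finset.sum_coe_sort Al (fun m => q (algebraMap ℂ R (a m) • F' m))]
      refine Finset.sum_congr rfl fun i _ => ?_
      rw [map_smul, ha i, algebraMap_smul]
    rw [hq0] at e1
    obtain ⟨r, hr, e2⟩ := hP _ e1
    have e3 : ∑ m ∈ Al, algebraMap ℂ R (a m) * F m = ∑ m ∈ MU, r m * F m := by
      rw [← e2, Submodule.coe_sum]
      refine Finset.sum_congr rfl fun m hm => ?_
      rw [Submodule.coe_smul, smul_eq_mul, hF' m (hAl hm)]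
    intro i
    rw [← ha i]
    exact hind a r hr e3 i i.2
  have hsp : ⊤ ≤ Submodule.span ℂ (Set.range (fun m : Al => q (F' m))) := by
    intro v _
    obtain ⟨y, rfl⟩ := hqs v
    obtain ⟨r, hr⟩ := hspan y y.2
    have e1 : y = ∑ m ∈ MU, r m • F' m := by
      apply Subtype.ext
      rw [hsum, hr]
    rw [e1, map_sum]
    refine Submodule.sum_mem _ fun m hm => ?_
    obtain ⟨a, ha⟩ := h𝔪 (r m)
    have e2 : q (r m • F' m) = a • q (F' m) := by
      have e3 : r m • F' m = (r m - algebraMap ℂ R a) • F' m + algebraMap ℂ R a • F' m := by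
        rw [← add_smul, sub_add_cancel]
      rw [e3, map_add, (hq0 _).2 (Submodule.smul_mem_smul ha Submodule.mem_top), zero_add,
        map_smul, algebraMap_smul]
    rw [e2]
    by_cases hmA : m ∈ Al
    · exact Submodule.smul_mem _ _ (Submodule.subset_span ⟨⟨m, hmA⟩, rfl⟩)
    · rw [hbad' m hm hmA, smul_zero]
      exact Submodule.zero_mem _
  have hfin := Module.finrank_eq_card_basis (Module.Basis.mk hli hsp)
  rw [hfin, Fintype.card_coe]

end CE
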