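import Pool.Agent.H43.CE.Defs

/-!
# CE, job C-Cyc : a product of disjoint cycles and its position in Bruhat order

The intervals `[c, top c]`, `c ∈ I`, are pairwise disjoint subintervals of `{0..n-1}`.
* `exists_cyc` : the permutation `y` with `y c = top c`, `y j = j - 1` for `c < j ≤ top c`, `y j = j` for all other `j`.  It is well defined since `j` lies in at most one interval `(c, top c]` and then `j ∉ I`
  (`c < j` in `I` would give `top c < j`).  Define the function `f` by cases and show injectivity (finite set: `Finite.injective_iff_bijective`, `Equiv.ofBijective`): on one interval the values `top c`, `c, .., top c - 1`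
  are different and in `[c, top c]`; the intervals are disjoint; other points are fixed.
* `ble_cyc` : `rk y i k ≤ rk x i k`, `rk y i k = #{j < k : i ≤ y j}`.
  Case `k ≤ i`: if `j < k` and `i ≤ y j` then `j < y j`, so `j = c ∈ I`, `c < k ≤ i ≤ top c`; at most one such `c` (disjointness: `c < c'` gives `top c < c' < k ≤ i`).  So `rk y i k ≤ 1` and if it is 1, `x` has `p ≤ c < k` with
  `i ≤ top c ≤ x p`, so `rk x i k ≥ 1`.
  Case `i < k`: `rk y i k = k - i` if `k ≤ n`: for every permutation `rk x i k = k - i + #{j ≥ k : x j < i}` (`k ≤ n`; count `{j : x j < i}`: `i` elements); for `y`: `j ≥ k > i > y j` is impossible as `y j ≥ j - 1`.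
  So `rk y i k ≤ rk x i k`.  `k > n`: `CMT.rk_of_ge`, `CMT.rk_top`.
-/

open MvPolynomial

noncomputable section

namespace CE

open CMT

variable {n : ℕ} {I : Finset (Fin n)} {top : Fin n → ℕ}

/-- the function underlying the permutation -/
def Cyc_f (I : Finset (Fin n)) (top : Fin n → ℕ) (h1 : ∀ c ∈ I, c.val ≤ top c ∧ top c < n)
    (j : Fin n) : Fin n :=
  if hj : j ∈ I then ⟨top j, (h1 j hj).2⟩
  else @dite _ (∃ c ∈ I, c < j ∧ j.val ≤ top c) (Classical.propDecidable _)
    (fun _ => ⟨j.val - 1, by have := j.2; omega⟩) (fun _ => j)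

theorem Cyc_f_mem (h1 : ∀ c ∈ I, c.val ≤ top c ∧ top c < n) {j : Fin n} (hj : j ∈ I) :
    (Cyc_f I top h1 j).val = top j := by
  unfold Cyc_f
  rw [dif_pos hj]

theorem Cyc_f_int (h1 : ∀ c ∈ I, c.val ≤ top c ∧ top c < n) {j : Fin n} (hj : j ∉ I)
    (hc : ∃ c ∈ I, c < j ∧ j.val ≤ top c) : (Cyc_f I top h1 j).val = j.val - 1 := by
  unfold Cyc_f
  rw [dif_neg hj, dif_pos hc]

theorem Cyc_f_fix (h1 : ∀ c ∈ I, c.val ≤ top c ∧ top c < n) {j : Fin n} (hj : j ∉ I)
    (hc : ¬ ∃ c ∈ I, c < j ∧ j.val ≤ top c) : Cyc_f I top h1 j = j := by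
  unfold Cyc_f
  rw [dif_neg hj, dif_neg hc]

theorem Cyc_aux1 (h1 : ∀ c ∈ I, c.val ≤ top c ∧ top c < n)
    (h2 : ∀ c ∈ I, ∀ c' ∈ I, c < c' → top c < c'.val) {a b : Fin n} (ha : a ∈ I) (hb : b ∉ I)
    (h : (Cyc_f I top h1 a).val = (Cyc_f I top h1 b).val) : False := by
  rw [Cyc_f_mem h1 ha] at h
  by_cases hc : ∃ c ∈ I, c < b ∧ b.val ≤ top c
  · rw [Cyc_f_int h1 hb hc] at h
    obtain ⟨c, hcI, hcb, hbt⟩ := hc
    have h3 : c.val < b.val := hcb
    rcases lt_trichotomy a c with h4 | h4 | h4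
    · have := h2 a ha c hcI h4
      omega
    · rw [h4] at h
      omega
    · have h5 := h2 c hcI a ha h4
      have h6 := (h1 a ha).1
      omega
  · rw [Cyc_f_fix h1 hb hc] at h
    apply hc
    refine ⟨a, ha, ?_, h.symm.le⟩
    have h6 := (h1 a ha).1
    have h7 : a ≠ b := by
      rintro rfl
      exact hb ha
    have h8 : a.val ≠ b.val := fun h => h7 (Fin.ext h)
    rw [Fin.lt_def]
    omega

theorem Cyc_aux2 (h1 : ∀ c ∈ I, c.val ≤ top c ∧ top c < n) {a b : Fin n} (ha : a ∉ I)
    (hb : b ∉ I) (hca : ∃ c ∈ I, c < a ∧ a.val ≤ top c) (hcb : ¬ ∃ c ∈ I, c < b ∧ b.val ≤ top c)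
    (h : (Cyc_f I top h1 a).val = (Cyc_f I top h1 b).val) : False := by
  rw [Cyc_f_int h1 ha hca, Cyc_f_fix h1 hb hcb] at h
  obtain ⟨c, hcI, hcb', hbt⟩ := hca
  have h3 : c.val < a.val := hcb'
  apply hcb
  refine ⟨c, hcI, ?_, by omega⟩
  have h7 : c ≠ b := by
    rintro rfl
    exact hb hcI
  have h8 : c.val ≠ b.val := fun h => h7 (Fin.ext h)
  rw [Fin.lt_def]
  omega

theorem Cyc_inj (h1 : ∀ c ∈ I, c.val ≤ top c ∧ top c < n)
    (h2 : ∀ c ∈ I, ∀ c' ∈ I, c < c' → top c < c'.val) :
    Function.Injective (Cyc_f I top h1) := by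
  intro a b hab
  have h : (Cyc_f I top h1 a).val = (Cyc_f I top h1 b).val := congrArg Fin.val hab
  by_cases ha : a ∈ I
  · by_cases hb : b ∈ I
    · rw [Cyc_f_mem h1 ha, Cyc_f_mem h1 hb] at h
      rcases lt_trichotomy a b with h4 | h4 | h4
      · have h5 := h2 a ha b hb h4
        have h6 := (h1 b hb).1
        omega
      · exact h4
      · have h5 := h2 b hb a ha h4
        have h6 := (h1 a ha).1
        omega
    · exact (Cyc_aux1 h1 h2 ha hb h).elim
  · by_cases hb : b ∈ I
    · exact (Cyc_aux1 h1 h2 hb ha h.symm).elim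
    · by_cases hca : ∃ c ∈ I, c < a ∧ a.val ≤ top c
      · by_cases hcb : ∃ c ∈ I, c < b ∧ b.val ≤ top c
        · rw [Cyc_f_int h1 ha hca, Cyc_f_int h1 hb hcb] at h
          obtain ⟨c, -, hc, -⟩ := hca
          obtain ⟨c', -, hc', -⟩ := hcb
          have h3 : c.val < a.val := hc
          have h4 : c'.val < b.val := hc'
          exact Fin.ext (by omega)
        · exact (Cyc_aux2 h1 ha hb hca hcb h).elim
      · by_cases hcb : ∃ c ∈ I, c < b ∧ b.val ≤ top c
        · exact (Cyc_aux2 h1 hb ha hcb hca h.symm).elim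
        · rw [Cyc_f_fix h1 ha hca, Cyc_f_fix h1 hb hcb] at hab
          exact hab

theorem exists_cyc (h1 : ∀ c ∈ I, c.val ≤ top c ∧ top c < n)
    (h2 : ∀ c ∈ I, ∀ c' ∈ I, c < c' → top c < c'.val) :
    ∃ y : Equiv.Perm (Fin n), (∀ c ∈ I, (y c).val = top c) ∧
      (∀ j : Fin n, (∃ c ∈ I, c < j ∧ j.val ≤ top c) → (y j).val + 1 = j.val) ∧
      (∀ j : Fin n, j ∉ I → (¬ ∃ c ∈ I, c < j ∧ j.val ≤ top c) → y j = j) := by
  refine ⟨Equiv.ofBijective _ (Finite.injective_iff_bijective.1 (Cyc_inj h1 h2)), ?_, ?_, ?_⟩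
  · intro c hc
    exact Cyc_f_mem h1 hc
  · intro j hj
    have hjI : j ∉ I := by
      intro hjI
      obtain ⟨c, hc, hcj, hjt⟩ := hj
      have := h2 c hc j hjI hcj
      omega
    have h3 : (Cyc_f I top h1 j).val + 1 = j.val := by
      rw [Cyc_f_int h1 hjI hj]
      obtain ⟨c, hc, hcj, hjt⟩ := hj
      have h4 : c.val < j.val := hcj
      omega
    exact h3
  · intro j hj hc
    exact Cyc_f_fix h1 hj hc

theorem Cyc_card (y : Equiv.Perm (Fin n)) (i : ℕ) :
    (Finset.univ.filter fun j : Fin n => (y j).val < i).card =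
      (Finset.univ.filter fun j : Fin n => j.val < i).card := by
  apply Finset.card_equiv y
  intro j
  simp

theorem Cyc_split (y : Equiv.Perm (Fin n)) (i k : ℕ) :
    (Finset.univ.filter fun j : Fin n => j.val < k ∧ (y j).val < i).card + rk y i k =
      (Finset.univ.filter fun j : Fin n => j.val < k).card := by
  unfold rk
  rw [← Finset.card_union_of_disjoint]
  · congr 1
    ext j
    simp only [Finset.mem_union, Finset.mem_filter, Finset.mem_univ, true_and]
    omega
  · rw [Finset.disjoint_filter]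
    rintro j - ⟨-, h3⟩ ⟨-, h4⟩
    omega

theorem ble_cyc (h1 : ∀ c ∈ I, c.val ≤ top c ∧ top c < n)
    (h2 : ∀ c ∈ I, ∀ c' ∈ I, c < c' → top c < c'.val) {y : Equiv.Perm (Fin n)}
    (hy1 : ∀ c ∈ I, (y c).val = top c)
    (hy2 : ∀ j : Fin n, (∃ c ∈ I, c < j ∧ j.val ≤ top c) → (y j).val + 1 = j.val)
    (hy3 : ∀ j : Fin n, j ∉ I → (¬ ∃ c ∈ I, c < j ∧ j.val ≤ top c) → y j = j)
    {x : Equiv.Perm (Fin n)} (hx : ∀ c ∈ I, ∃ p, p ≤ c ∧ top c ≤ (x p).val) : ble y x := by
  intro i k
  rcases le_or_gt k i with hki | hik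
  · -- at most one element
    have hI : ∀ j : Fin n, j.val < k → i ≤ (y j).val → j ∈ I ∧ i ≤ top j := by
      intro j hj hij
      by_cases hjI : j ∈ I
      · rw [hy1 j hjI] at hij
        exact ⟨hjI, hij⟩
      · exfalso
        by_cases hc : ∃ c ∈ I, c < j ∧ j.val ≤ top c
        · have := hy2 j hc
          omega
        · have h3 := hy3 j hjI hc
          rw [h3] at hij
          omega
    rcases Finset.eq_empty_or_nonempty
        (Finset.univ.filter fun j : Fin n => j.val < k ∧ i ≤ (y j).val) with he | ⟨j0, hj0⟩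
    · unfold rk
      rw [he, Finset.card_empty]
      exact Nat.zero_le _
    · rw [Finset.mem_filter] at hj0
      obtain ⟨-, hj0k, hj0i⟩ := hj0
      obtain ⟨hj0I, hj0t⟩ := hI j0 hj0k hj0i
      have h3 : rk y i k ≤ 1 := by
        unfold rk
        rw [Finset.card_le_one_iff]
        intro a b ha hb
        rw [Finset.mem_filter] at ha hb
        obtain ⟨haI, hat⟩ := hI a ha.2.1 ha.2.2
        obtain ⟨hbI, hbt⟩ := hI b hb.2.1 hb.2.2
        rcases lt_trichotomy a b with h4 | h4 | h4
        · have h5 := h2 a haI b hbI h4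
          have h6 := hb.2.1
          omega
        · exact h4
        · have h5 := h2 b hbI a haI h4
          have h6 := ha.2.1
          omega
      obtain ⟨p, hp, hpt⟩ := hx j0 hj0I
      have h4 : 1 ≤ rk x i k := by
        unfold rk
        rw [Nat.one_le_iff_ne_zero, ← Nat.pos_iff_ne_zero, Finset.card_pos]
        refine ⟨p, ?_⟩
        rw [Finset.mem_filter]
        have h5 : p.val ≤ j0.val := hp
        exact ⟨Finset.mem_univ _, by omega, by omega⟩
      exact h3.trans h4
  · have hyj : ∀ j : Fin n, j.val ≤ (y j).val + 1 := by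
      intro j
      by_cases hc : ∃ c ∈ I, c < j ∧ j.val ≤ top c
      · have := hy2 j hc
        omega
      · by_cases hjI : j ∈ I
        · have h3 := hy1 j hjI
          have h4 := (h1 j hjI).1
          omega
        · rw [hy3 j hjI hc]
          omega
    have e1 := Cyc_split y i k
    have e2 := Cyc_split x i k
    have e3 : (Finset.univ.filter fun j : Fin n => j.val < k ∧ (y j).val < i) =
        Finset.univ.filter fun j : Fin n => (y j).val < i := by
      ext j
      simp only [Finset.mem_filter, Finset.mem_univ, true_and]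
      have := hyj j
      omega
    have e4 : (Finset.univ.filter fun j : Fin n => j.val < k ∧ (x j).val < i).card ≤
        (Finset.univ.filter fun j : Fin n => (x j).val < i).card := by
      apply Finset.card_le_card
      intro j hj
      rw [Finset.mem_filter] at hj ⊢
      exact ⟨hj.1, hj.2.2⟩
    rw [e3, Cyc_card] at e1
    rw [Cyc_card] at e4
    omega

end CE
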