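import Pool.Agent.H43.CE.C.Indep
import Pool.Agent.H43.CE.C.Cnt
import Pool.Agent.H43.CE.C.CardMon

/-!
# CE, job C-Fin : the number of generators of the boundary ideal (assembly)

`finrank_of_gens` with `R = CR (SS 1 v)`, `𝔪 = orig (SS 1 v)`, `N = bd 1 v`, `MU`, `Al` as in C/Bad.lean, `F` from `exists_gens`, `al_subset`, `bad_gen`, `indep`; `h𝔪`: for `r = mk f`: `a = constantCoeff f`, `f - C a ∈ span (range X)`.
`card_Mon` with `top c = min (u c) (mx w⁻¹ c)`: `c ≤ top c` (`pres_le`, `le_mx`), `top c ≤ u c < n`, `top c ≤ u c < c'`; `dF u w c = top c - c`.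
-/

open MvPolynomial

noncomputable section

namespace CE

open CMT

variable {n : ℕ} {I : Finset (Fin n)} {u w : Equiv.Perm (Fin n)} {ν : Fin n → ℕ} {H : Fin n → ℤ}

theorem cfin_const (f : MvPolynomial (Low n) ℂ) :
    f - C (constantCoeff f) ∈ Ideal.span (Set.range (X : Low n → MvPolynomial (Low n) ℂ)) := by
  induction f using MvPolynomial.induction_on with
  | C a =>
    rw [constantCoeff_C, sub_self]
    exact Ideal.zero_mem _
  | add p q hp hq =>
    have e : p + q - C (constantCoeff (p + q)) =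
        (p - C (constantCoeff p)) + (q - C (constantCoeff q)) := by
      rw [map_add, map_add]
      ring
    rw [e]
    exact Ideal.add_mem _ hp hq
  | mul_X p i _ =>
    rw [map_mul, constantCoeff_X, mul_zero, map_zero, sub_zero]
    exact Ideal.mul_mem_left _ _ (Ideal.subset_span ⟨i, rfl⟩)

theorem cfin_max {S : Set (Low n → ℂ)} (r : CR S) :
    ∃ a : ℂ, r - algebraMap ℂ (CR S) a ∈ orig S := by
  obtain ⟨f, rfl⟩ := Ideal.Quotient.mk_surjective r
  refine ⟨constantCoeff f, ?_⟩
  have e : Ideal.Quotient.mk (VI S) f - algebraMap ℂ (CR S) (constantCoeff f) =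
      Ideal.Quotient.mk (VI S) (f - C (constantCoeff f)) := by
    rw [map_sub]
    rfl
  have e2 : orig S = (Ideal.span (Set.range (X : Low n → MvPolynomial (Low n) ℂ))).map
      (Ideal.Quotient.mk (VI S)) := by
    rw [Ideal.map_span, ← Set.range_comp]
    rfl
  rw [e, e2]
  exact Ideal.mem_map_of_mem _ (cfin_const f)

theorem finrank_prod (hs : Setup u w I ν H) :
    Module.finrank ℂ (bd 1 (u * w) ⧸
      (orig (SS 1 (u * w)) • (⊤ : Submodule (CR (SS 1 (u * w))) (bd 1 (u * w))))) =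
      ∏ c ∈ I, (ν c + dF u w c).choose (dF u w c) := by
  obtain ⟨F, hF1, hF2, hF3⟩ := exists_gens hs
  have hmain := finrank_of_gens (orig (SS 1 (u * w))) (fun r => cfin_max r) (bd 1 (u * w))
    (Mon I (fun c => (u c).val) ν) (Mon I (fun c => min (u c).val (mx w⁻¹ c)) ν)
    (al_subset hs.pres) F hF1 hF3
    (fun m _ hm' => bad_gen hs.ne.1 hs.pres hF2 ‹_› hm')
    (fun a r hr h => indep hs.ne.1 hs.pres hF2 a r hr h)
  have hcard := card_Mon I (fun c => min (u c).val (mx w⁻¹ c)) ν
    (fun c hc => ⟨le_min (Fin.le_def.1 (pres_le hs.pres hc le_rfl)) (le_mx w⁻¹ c),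
      lt_of_le_of_lt (min_le_left _ _) (u c).isLt⟩)
    (fun c _ c' hc' hlt => lt_of_le_of_lt (min_le_left _ _)
      (Fin.lt_def.1 (hs.pres c' hc' c hlt)))
  rw [hcard] at hmain
  exact hmain

end CE
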