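import Pool.Agent.H43.CE.C.Zero
import Pool.Agent.H43.CE.C.Bad

/-!
# CE, job C-Indep : independence of the remaining generators

`v = u * w`, `MU`, `Al` as in C/Bad.lean, `top c = min (u c) (mx w⁻¹ c)`.
* The two sides of `h` correspond (`isF_sum`, `al_subset`) to `∑_{m ∈ Al} psi (algebraMap ℂ _ (a m)) * xm m` and `∑_{m ∈ MU} psi (r m) * xm m`; `isF_inj`: they are equal in `𝒮`.
* For `x` as in `zero_mem` there is a ring homomorphism `ev : 𝒮 → ℂ` with `ev (mk f) = aeval (Sum.elim 0 x) f` (`Ideal.Quotient.lift`, `zero_mem`).  `ev (psi (r m)) = 0` for `r m ∈ orig`: `orig = span (mk (X e))` and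
  `ev (psi (mk (X e))) = 0`.  `ev (xm m) = ∏ x j ^ m j`.  So `∑_{m ∈ Al} a m * ∏_j x j ^ m j = 0`.
* `P = ∑_{m ∈ Al} a m X^m ∈ MvPolynomial (Fin n) ℂ` (`monomial (Finsupp.equivFunOnFinite.symm m) (a m)`), `Q = ∏_{c ∈ I} X ⟨top c, _⟩` (`top c ≤ u c < n`).  `P * Q = 0` by `MvPolynomial.funext`: at `x`: if some `x ⟨top c, _⟩ = 0` then `Q(x) = 0`; otherwise let
  `xr j = x j` if `j` is in some `[c, top c]`, `0` otherwise; `P(x) = P(xr)` (the `m ∈ Al` are supported in the intervals), and `P(xr) = 0` by the previous point (`c ≤ top c`: `pres_le`, `le_mx`).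
  `Q ≠ 0`, so `P = 0`, so all `a m = 0`.
-/

open MvPolynomial

noncomputable section

namespace CE

open CMT

variable {n : ℕ} {I : Finset (Fin n)} {u w : Equiv.Perm (Fin n)} {ν : Fin n → ℕ} {H : Fin n → ℤ}

/-- the evaluation homomorphism -/
private def iEv (had : AD u w) (hp : Pres I u) {x : Fin n → ℂ}
    (hx : ∀ j : Fin n, x j ≠ 0 → ∃ c ∈ I, c ≤ j ∧ j.val ≤ min (u c).val (mx w⁻¹ c))
    (hx' : ∀ c ∈ I, ∀ j : Fin n, j.val = min (u c).val (mx w⁻¹ c) → x j ≠ 0) :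
    CR (E1 I u w) →+* ℂ :=
  Ideal.Quotient.lift (VI (E1 I u w))
    (aeval (Sum.elim (fun _ => 0) x : (Low n ⊕ Fin n) → ℂ)).toRingHom
    (fun _ hf => zero_mem had hp hx hx' hf)

private theorem iEv_mk (had : AD u w) (hp : Pres I u) {x : Fin n → ℂ}
    (hx : ∀ j : Fin n, x j ≠ 0 → ∃ c ∈ I, c ≤ j ∧ j.val ≤ min (u c).val (mx w⁻¹ c))
    (hx' : ∀ c ∈ I, ∀ j : Fin n, j.val = min (u c).val (mx w⁻¹ c) → x j ≠ 0)
    (f : MvPolynomial (Low n ⊕ Fin n) ℂ) :
    iEv had hp hx hx' (Ideal.Quotient.mk _ f) =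
      aeval (Sum.elim (fun _ => 0) x : (Low n ⊕ Fin n) → ℂ) f := rfl

private theorem iEv_orig (had : AD u w) (hp : Pres I u) {x : Fin n → ℂ}
    (hx : ∀ j : Fin n, x j ≠ 0 → ∃ c ∈ I, c ≤ j ∧ j.val ≤ min (u c).val (mx w⁻¹ c))
    (hx' : ∀ c ∈ I, ∀ j : Fin n, j.val = min (u c).val (mx w⁻¹ c) → x j ≠ 0)
    {r : CR (SS 1 (u * w))} (hr : r ∈ orig (SS 1 (u * w))) :
    iEv had hp hx hx' (psi I u w r) = 0 := by
  have h1 : orig (SS 1 (u * w)) ≤ RingHom.ker ((iEv had hp hx hx').comp (psi I u w)) := by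
    unfold orig
    rw [Ideal.span_le]
    rintro _ ⟨e, rfl⟩
    show (iEv had hp hx hx') (psi I u w (Ideal.Quotient.mk _ (X e))) = 0
    rw [psi_mk, iEv_mk, inX, rename_X, aeval_X]
    rfl
  exact h1 hr

private theorem iEv_alg (had : AD u w) (hp : Pres I u) {x : Fin n → ℂ}
    (hx : ∀ j : Fin n, x j ≠ 0 → ∃ c ∈ I, c ≤ j ∧ j.val ≤ min (u c).val (mx w⁻¹ c))
    (hx' : ∀ c ∈ I, ∀ j : Fin n, j.val = min (u c).val (mx w⁻¹ c) → x j ≠ 0) (a : ℂ) :
    iEv had hp hx hx' (psi I u w (algebraMap ℂ _ a)) = a := by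
  show (iEv had hp hx hx') (psi I u w (Ideal.Quotient.mk _ (C a))) = a
  rw [psi_mk, iEv_mk, inX, rename_C, aeval_C]
  rfl

private theorem iEv_xm (had : AD u w) (hp : Pres I u) {x : Fin n → ℂ}
    (hx : ∀ j : Fin n, x j ≠ 0 → ∃ c ∈ I, c ≤ j ∧ j.val ≤ min (u c).val (mx w⁻¹ c))
    (hx' : ∀ c ∈ I, ∀ j : Fin n, j.val = min (u c).val (mx w⁻¹ c) → x j ≠ 0)
    (m : Fin n → ℕ) : iEv had hp hx hx' (xm I u w m) = ∏ j, x j ^ m j := by
  unfold xm
  rw [map_prod]
  refine Finset.prod_congr rfl fun j _ => ?_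
  rw [map_pow, iEv_mk, xx, aeval_X]
  rfl

private theorem iMain (had : AD u w) (hp : Pres I u) {F : (Fin n → ℕ) → CR (SS 1 (u * w))}
    (hF : ∀ m ∈ Mon I (fun c => (u c).val) ν, IsF I u w ν H (F m) (xm I u w m))
    (a : (Fin n → ℕ) → ℂ) (r : (Fin n → ℕ) → CR (SS 1 (u * w)))
    (hr : ∀ m, r m ∈ orig (SS 1 (u * w)))
    (h : ∑ m ∈ Mon I (fun c => min (u c).val (mx w⁻¹ c)) ν, algebraMap ℂ _ (a m) * F m =
      ∑ m ∈ Mon I (fun c => (u c).val) ν, r m * F m) {x : Fin n → ℂ}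
    (hx : ∀ j : Fin n, x j ≠ 0 → ∃ c ∈ I, c ≤ j ∧ j.val ≤ min (u c).val (mx w⁻¹ c))
    (hx' : ∀ c ∈ I, ∀ j : Fin n, j.val = min (u c).val (mx w⁻¹ c) → x j ≠ 0) :
    ∑ m ∈ Mon I (fun c => min (u c).val (mx w⁻¹ c)) ν, a m * ∏ j, x j ^ m j = 0 := by
  have h1 := isF_sum (H := H) (Mon I (fun c => min (u c).val (mx w⁻¹ c)) ν)
    (fun m => algebraMap ℂ _ (a m)) F (xm I u w) (fun m hm => hF m (al_subset hp hm))
  have h2 := isF_sum (H := H) (Mon I (fun c => (u c).val) ν) r F (xm I u w) hF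
  rw [h] at h1
  have h3 := isF_inj had hp h1 h2
  have h4 := congrArg (iEv had hp hx hx') h3
  rw [map_sum, map_sum] at h4
  have h5 : ∑ m ∈ Mon I (fun c => (u c).val) ν,
      iEv had hp hx hx' (psi I u w (r m) * xm I u w m) = 0 := by
    apply Finset.sum_eq_zero
    intro m _
    rw [map_mul, iEv_orig had hp hx hx' (hr m), zero_mul]
  rw [h5] at h4
  rw [← h4]
  refine Finset.sum_congr rfl fun m _ => ?_
  rw [map_mul, iEv_alg, iEv_xm]

theorem indep (had : AD u w) (hp : Pres I u) {F : (Fin n → ℕ) → CR (SS 1 (u * w))}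
    (hF : ∀ m ∈ Mon I (fun c => (u c).val) ν, IsF I u w ν H (F m) (xm I u w m))
    (a : (Fin n → ℕ) → ℂ) (r : (Fin n → ℕ) → CR (SS 1 (u * w)))
    (hr : ∀ m, r m ∈ orig (SS 1 (u * w)))
    (h : ∑ m ∈ Mon I (fun c => min (u c).val (mx w⁻¹ c)) ν, algebraMap ℂ _ (a m) * F m =
      ∑ m ∈ Mon I (fun c => (u c).val) ν, r m * F m) :
    ∀ m ∈ Mon I (fun c => min (u c).val (mx w⁻¹ c)) ν, a m = 0 := by
  classical
  set Al := Mon I (fun c => min (u c).val (mx w⁻¹ c)) ν with hAl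
  have hsup : ∀ m ∈ Al, ∀ j, m j ≠ 0 → ∃ c ∈ I, c ≤ j ∧ j.val ≤ min (u c).val (mx w⁻¹ c) := by
    intro m hm
    rw [hAl, Mon] at hm
    exact ((@Finset.mem_filter _ _ (_) _ _).1 hm).2.1
  set tp : Fin n → Fin n := fun c =>
    ⟨min (u c).val (mx w⁻¹ c), lt_of_le_of_lt (min_le_left _ _) (u c).isLt⟩ with htp
  set P : MvPolynomial (Fin n) ℂ :=
    ∑ m ∈ Al, monomial (Finsupp.equivFunOnFinite.symm m) (a m) with hP
  set Q : MvPolynomial (Fin n) ℂ := ∏ c ∈ I, X (tp c) with hQ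
  have hev : ∀ x : Fin n → ℂ, eval x P = ∑ m ∈ Al, a m * ∏ j, x j ^ m j := by
    intro x
    rw [hP, map_sum]
    refine Finset.sum_congr rfl fun m _ => ?_
    rw [eval_monomial, Finsupp.prod_fintype _ _ (fun i => pow_zero _)]
    rfl
  have hPQ : P * Q = 0 := by
    apply MvPolynomial.funext
    intro x
    rw [map_mul, map_zero]
    by_cases hz : ∃ c ∈ I, x (tp c) = 0
    · obtain ⟨c, hc, hc0⟩ := hz
      have h6 : eval x Q = 0 := by
        rw [hQ, map_prod]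
        exact Finset.prod_eq_zero hc (by rw [eval_X, hc0])
      rw [h6, mul_zero]
    · push Not at hz
      set xr : Fin n → ℂ := fun j =>
        if ∃ c ∈ I, c ≤ j ∧ j.val ≤ min (u c).val (mx w⁻¹ c) then x j else 0 with hxr
      have h6 : eval x P = eval xr P := by
        rw [hev, hev]
        refine Finset.sum_congr rfl fun m hm => ?_
        congr 1
        refine Finset.prod_congr rfl fun j _ => ?_
        by_cases hmj : m j = 0
        · rw [hmj, pow_zero, pow_zero]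
        · rw [hxr]
          simp only
          rw [if_pos (hsup m hm j hmj)]
      have h7 : eval xr P = 0 := by
        rw [hev]
        apply iMain had hp hF a r hr h
        · intro j hj
          by_contra hcon
          apply hj
          rw [hxr]
          simp only
          rw [if_neg hcon]
        · intro c hc j hj
          have hj' : j = tp c := Fin.ext hj
          have h8 : c ≤ j := by
            rw [Fin.le_def, hj]
            exact le_min (pres_le hp hc le_rfl) (le_mx w⁻¹ c)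
          rw [hxr]
          simp only
          rw [if_pos ⟨c, hc, h8, hj.le⟩, hj']
          exact hz c hc
      rw [h6, h7, zero_mul]
  have hQ0 : Q ≠ 0 := by
    rw [hQ, Finset.prod_ne_zero_iff]
    intro c _
    exact X_ne_zero _
  have hP0 : P = 0 := (mul_eq_zero.1 hPQ).resolve_right hQ0
  intro m hm
  have h9 := congrArg (coeff (Finsupp.equivFunOnFinite.symm m)) hP0
  rw [hP, coeff_sum, coeff_zero, Finset.sum_eq_single m] at h9
  · rwa [coeff_monomial, if_pos rfl] at h9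
  · intro m' _ hne
    rw [coeff_monomial, if_neg]
    intro h10
    exact hne (Finsupp.equivFunOnFinite.symm.injective h10)
  · intro h10
    exact absurd hm h10

end CE
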