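import Pool.Agent.H43.CE.I.Rel

/-!
# CE, job C-LowRel : the coordinates beyond `mx w⁻¹ c` are in `𝔪` times the others

Let `L = lowMat X` over `MvPolynomial (Low n) ℂ`, `Λ = L.adjugate`, `Λ * L = 1` (`det_lowMat`).  Take `g j' = (if j' = j then 1 else 0) - Λ j j'`.
* `g j' ∈ span (range X)`: evaluate at `0`: `L(0) = 1`, `Λ(0) = 1` (adjugate of 1), so the constant coefficient of `g j'` is 0; a polynomial without constant term is in `span (range X)`
  (`MvPolynomial.mem_ideal_span_X_image` or as in CM).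
* Claim: `∑_{j' ∈ Icc c (u c)} Λ(z) j j' * x j' = 0` at every point of `E1`.  `M = lowMat z = b * permMat v * b'`, `s = u c`, `x j' = b j' s * x' s` for `j' ∈ Icc c s` (`bk_of_mem`, `x_of_block`).
  So `∑_{j' ∈ Icc c s} Λ j j' x j' = x' s * ((Λ b) j s - ∑_{i<c} Λ j i * b i s)` (`b j' s = 0` for `j' > s`).
  `Λ(z) = M⁻¹`, `Λ b = b'⁻¹ * permMat v⁻¹`, i.e. `(Λ b) j i' = b'⁻¹ j (v⁻¹ i')`, which is 0 if `v⁻¹ i' < j` (`b'⁻¹` is upper).
  `i' = s`: `v⁻¹ s = w⁻¹ c ≤ mx w⁻¹ c < j`.  And `Λ j i = ∑_{i' ≤ i} (Λ b) j i' * b⁻¹ i' i`, for `i' ≤ i < c`: `v⁻¹ i' = w⁻¹ (u⁻¹ i')`, `u⁻¹ i' < c` (`pres_inv_lt`), so `v⁻¹ i' ≤ mx w⁻¹ c < j`: `Λ j i = 0` for all `i < c`.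
* `Λ(z)` is `aeval z` applied entrywise (`RingHom.map_adjugate`, `lowMat_map`).
-/

open MvPolynomial

noncomputable section

namespace CE

open CMT

variable {n : ℕ} {I : Finset (Fin n)} {u w : Equiv.Perm (Fin n)}

theorem le_mx_of_le (y : Equiv.Perm (Fin n)) {p k : Fin n} (h : p ≤ k) : (y p).val ≤ mx y k := by
  unfold mx
  exact Finset.le_sup (f := fun p : Fin n => (y p).val) (Finset.mem_filter.2 ⟨Finset.mem_univ p, h⟩)

/-- the universal lower unitriangular matrix -/
def LowRel_L (n : ℕ) : Matrix (Fin n) (Fin n) (MvPolynomial (Low n) ℂ) :=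
  lowMat (fun e : Low n => (X e : MvPolynomial (Low n) ℂ))

theorem LowRel_span (f : MvPolynomial (Low n) ℂ) (h : constantCoeff f = 0) :
    f ∈ Ideal.span (Set.range (X : Low n → MvPolynomial (Low n) ℂ)) := by
  rw [← Set.image_univ, mem_ideal_span_X_image]
  intro m hm
  have hm0 : m ≠ 0 := by
    rintro rfl
    rw [mem_support_iff] at hm
    exact hm h
  obtain ⟨i, hi⟩ := Finsupp.ne_iff.1 hm0
  exact ⟨i, Set.mem_univ i, hi⟩

theorem LowRel_map {S : Type*} [CommRing S] (f : MvPolynomial (Low n) ℂ →+* S) (i j : Fin n) :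
    f ((LowRel_L n).adjugate i j) = (lowMat fun e : Low n => f (X e)).adjugate i j := by
  have h1 := f.map_adjugate (LowRel_L n)
  have h2 : f.mapMatrix (LowRel_L n) = lowMat fun e : Low n => f (X e) := lowMat_map f _
  rw [h2] at h1
  exact congrFun (congrFun h1 i) j

theorem LowRel_const (i j : Fin n) :
    constantCoeff ((LowRel_L n).adjugate i j) = if j = i then 1 else 0 := by
  rw [LowRel_map constantCoeff i j]
  have h1 : (lowMat fun e : Low n => constantCoeff (X e : MvPolynomial (Low n) ℂ)) =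
      (1 : Matrix (Fin n) (Fin n) ℂ) := by
    rw [← lowMat_zero]
    congr 1
    funext e
    exact constantCoeff_X _ _
  rw [h1, Matrix.adjugate_one, Matrix.one_apply]
  by_cases h : i = j
  · rw [if_pos h, if_pos h.symm]
  · rw [if_neg h, if_neg fun h' => h h'.symm]

/-- the linear relation at a point -/
theorem LowRel_pt (hp : Pres I u) {c j : Fin n} (hc : c ∈ I) (h3 : mx w⁻¹ c < j.val)
    {M Λ b b' : Matrix (Fin n) (Fin n) ℂ} {x : Fin n → ℂ} {t : ℂ} (hb : IsUpper b)
    (hb' : IsUpper b') (hM : M = b * permMat ℂ (u * w) * b') (hΛ : Λ * M = 1)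
    (hx : ∀ j', c ≤ j' → j' ≤ u c → x j' = b j' (u c) * t) :
    ∑ j' ∈ Finset.Icc c (u c), Λ j j' * x j' = 0 := by
  obtain ⟨N, hN⟩ : ∃ N, N = Λ * b := ⟨_, rfl⟩
  have hbu : IsUnit b.det := isUnit_iff_ne_zero.mpr hb.det_ne
  have h1 : N * permMat ℂ (u * w) * b' = 1 := by
    rw [hN, Matrix.mul_assoc, Matrix.mul_assoc, ← Matrix.mul_assoc b, ← hM, hΛ]
  have h2 : N * permMat ℂ (u * w) = b'⁻¹ := (Matrix.inv_eq_left_inv h1).symm
  have h4 : ∀ k : Fin n, k < j → N j ((u * w) k) = 0 := by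
    intro k hk
    have h5 := congrFun (congrFun h2 j) k
    rw [mul_permMat_apply] at h5
    rw [h5]
    exact hb'.inv.1 j k hk
  have h6 : ∀ i : Fin n, (u * w)⁻¹ i < j → N j i = 0 := by
    intro i hi
    have h7 := h4 _ hi
    rwa [comb_ai] at h7
  have h8 : Λ = N * b⁻¹ := by
    rw [hN, Matrix.mul_assoc, Matrix.mul_nonsing_inv _ hbu, Matrix.mul_one]
  have h9 : ∀ i : Fin n, i < c → Λ j i = 0 := by
    intro i hi
    rw [h8, Matrix.mul_apply]
    refine Finset.sum_eq_zero fun k _ => ?_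
    rcases lt_or_ge i k with hk | hk
    · rw [hb.inv.1 k i hk, mul_zero]
    · have h10 : u⁻¹ k < c := pres_inv_lt hp hc (lt_of_le_of_lt hk hi)
      have h11 := le_mx_of_le w⁻¹ h10.le
      have h12 : (u * w)⁻¹ k < j := by
        rw [mul_inv_rev, Equiv.Perm.mul_apply, Fin.lt_def]
        omega
      rw [h6 k h12, zero_mul]
  have h13 : N j (u c) = 0 := by
    apply h6
    have h11 := le_mx_of_le w⁻¹ (le_refl c)
    rw [mul_inv_rev, Equiv.Perm.mul_apply, comb_ii, Fin.lt_def]
    omega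
  have h14 : ∑ j' ∈ Finset.Icc c (u c), Λ j j' * x j' =
      ∑ j' ∈ Finset.Icc c (u c), Λ j j' * (b j' (u c) * t) := by
    refine Finset.sum_congr rfl fun j' hj' => ?_
    rw [Finset.mem_Icc] at hj'
    rw [hx j' hj'.1 hj'.2]
  have h15 : ∑ j' ∈ Finset.Icc c (u c), Λ j j' * (b j' (u c) * t) =
      ∑ j', Λ j j' * (b j' (u c) * t) := by
    refine Finset.sum_subset (Finset.subset_univ _) fun j' _ hj' => ?_
    rw [Finset.mem_Icc, not_and_or, not_le, not_le] at hj'
    rcases hj' with h | h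
    · rw [h9 j' h, zero_mul]
    · rw [hb.1 j' (u c) h, zero_mul, mul_zero]
  have h16 : ∑ j', Λ j j' * (b j' (u c) * t) = N j (u c) * t := by
    rw [hN, Matrix.mul_apply, Finset.sum_mul]
    refine Finset.sum_congr rfl fun j' _ => ?_
    ring
  rw [h14, h15, h16, h13, zero_mul]

theorem low_rel (hp : Pres I u) {c j : Fin n} (hc : c ∈ I) (h1 : c ≤ j) (h2 : j ≤ u c)
    (h3 : mx w⁻¹ c < j.val) :
    ∃ g : Fin n → MvPolynomial (Low n) ℂ,
      (∀ j', g j' ∈ Ideal.span (Set.range (X : Low n → MvPolynomial (Low n) ℂ))) ∧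
      (Ideal.Quotient.mk (VI (E1 I u w)) (xx j)) = ∑ j' ∈ Finset.Icc c (u c),
        Ideal.Quotient.mk (VI (E1 I u w)) (inX (g j')) * Ideal.Quotient.mk _ (xx j') := by
  refine ⟨fun j' => (if j' = j then 1 else 0) - (LowRel_L n).adjugate j j', fun j' => ?_, ?_⟩
  · apply LowRel_span
    rw [map_sub, LowRel_const]
    by_cases h : j' = j
    · rw [if_pos h, if_pos h, map_one, sub_self]
    · rw [if_neg h, if_neg h, map_zero, sub_self]
  · have h4 : ∑ j' ∈ Finset.Icc c (u c), Ideal.Quotient.mk (VI (E1 I u w))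
        (inX ((if j' = j then 1 else 0) - (LowRel_L n).adjugate j j')) *
          Ideal.Quotient.mk _ (xx j') = Ideal.Quotient.mk (VI (E1 I u w))
        (∑ j' ∈ Finset.Icc c (u c), inX ((if j' = j then 1 else 0) -
          (LowRel_L n).adjugate j j') * xx j') := by
      rw [map_sum]
      refine Finset.sum_congr rfl fun j' _ => ?_
      rw [map_mul]
    refine Eq.trans ?_ h4.symm
    rw [Ideal.Quotient.eq, mem_vanishingIdeal_iff]
    rintro z ⟨b, b', x', hb, hb', hx, -, hM, hx2⟩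
    have hM' : permMat ℂ (1 : Equiv.Perm (Fin n)) * lowMat (fun e => z (Sum.inl e)) =
        b * permMat ℂ (u * w) * b' := hM
    rw [permMat_one, Matrix.one_mul] at hM'
    have hxj : ∀ j', c ≤ j' → j' ≤ u c → z (Sum.inr j') = b j' (u c) * x' (u c) :=
      fun j' h5 h6 => (congrFun hx2 j').trans (x_of_block hp hx hc (bk_of_mem hp hc h5 h6))
    have hΛ : (lowMat fun e : Low n => z (Sum.inl e)).adjugate *
        lowMat (fun e : Low n => z (Sum.inl e)) = 1 := by
      rw [Matrix.adjugate_mul, det_lowMat, one_smul]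
    have h7 := LowRel_pt (x := fun j' => z (Sum.inr j')) (t := x' (u c)) hp hc h3 hb hb' hM' hΛ hxj
    have h8 : ∀ j' : Fin n, aeval z (inX ((LowRel_L n).adjugate j j')) =
        (lowMat fun e : Low n => z (Sum.inl e)).adjugate j j' := by
      intro j'
      rw [Rel_aeval_inX]
      have h9 := LowRel_map (aeval fun e : Low n => z (Sum.inl e) :
        MvPolynomial (Low n) ℂ →ₐ[ℂ] ℂ).toRingHom j j'
      refine Eq.trans h9 ?_
      congr 2
      funext e
      exact aeval_X _ _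
    have h10 : ∀ j' : Fin n, aeval z (inX ((if j' = j then 1 else 0) -
        (LowRel_L n).adjugate j j')) = (if j' = j then 1 else 0) -
          (lowMat fun e : Low n => z (Sum.inl e)).adjugate j j' := by
      intro j'
      have h11 : inX ((if j' = j then 1 else 0) - (LowRel_L n).adjugate j j') =
          inX (if j' = j then 1 else 0) - inX ((LowRel_L n).adjugate j j') := map_sub _ _ _
      rw [h11, map_sub, h8]
      congr 1
      by_cases h : j' = j
      · rw [if_pos h, if_pos h, inX, map_one, map_one]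
      · rw [if_neg h, if_neg h, inX, map_zero, map_zero]
    rw [map_sub, map_sum, xx, aeval_X]
    have h12 : ∑ j' ∈ Finset.Icc c (u c), aeval z (inX ((if j' = j then 1 else 0) -
        (LowRel_L n).adjugate j j') * xx j') = ∑ j' ∈ Finset.Icc c (u c),
        ((if j' = j then z (Sum.inr j') else 0) -
          (lowMat fun e : Low n => z (Sum.inl e)).adjugate j j' * z (Sum.inr j')) := by
      refine Finset.sum_congr rfl fun j' _ => ?_
      rw [map_mul, h10, xx, aeval_X, sub_mul]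
      congr 1
      by_cases h : j' = j
      · rw [if_pos h, if_pos h, one_mul]
      · rw [if_neg h, if_neg h, zero_mul]
    rw [h12, Finset.sum_sub_distrib, h7, sub_zero, Finset.sum_ite_eq',
      if_pos (Finset.mem_Icc.2 ⟨h1, h2⟩), sub_self]

end CE
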