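import Pool.Agent.H43.CE.C.Cyc
import Pool.Agent.H43.CE.Z.Sup
import Pool.Agent.H43.CE.Z.PPZ

/-!
# CE, job C-Zero : points `(0, x)` in the closure of `E1`

`top c = min (u c) (mx w⁻¹ c)`.
* `le_mx` : `k ≤ mx y k`: the `k + 1` different numbers `y p`, `p ≤ k`, are all `≤ mx y k`.
* `exists_mx` : `mx y k = y p` for some `p ≤ k` (`Finset.exists_mem_eq_sup`, the filter is nonempty).
* `c ≤ top c`: `pres_le` (`c ≤ u c`) and `le_mx`.  `top c ≤ u c < n`; `c < c'` in `I`: `top c ≤ u c < c'` (`Pres`).  `exists_cyc` gives `y`; `ble y u` (`ble_cyc` with `p = c`), `ble y w⁻¹` (`exists_mx`), so `ble y⁻¹ w` (`CMT.ble_inv`).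
* matrix `b`: for `j` with `j.val = top c`, `c ∈ I` (unique `c`): column `j` is `b i j = x i` if `c ≤ i` and `i ≤ j`, `0` otherwise; for all other `j`: column `j` is `e_j`.  `b` is upper triangular with nonzero diagonal (`hx'`).
  `g1 = b * permMat y ∈ Cell y`, `g2 = permMat y⁻¹ * b⁻¹ ∈ Cell y⁻¹`, `g1 * g2 = 1 = lowMat 0`.
  `l c = 1` for `c ∈ I`, `0` otherwise.  `g1 j c = b j (y c)`, `y c = top c`: `= x j` if `c ≤ j ≤ top c`, `0` otherwise.  `((bdg (bk I) g1).mulVec l) j = ∑_{c ∈ I, bk I c = bk I j} g1 j c = x j`: if `c ≤ j ≤ top c ≤ u c` then `bk I j = bk I c` (`bk_eq_of`, `Pres`), and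
  `c` is unique (`bk_inj`); if `j` is in no interval then both sides are 0 (`hx`).
  So `Sum.elim 0 x ∈ Zc I y y⁻¹`, and `VI (E1 I u w) = VI (Zc I u w) ≤ VI (Zc I y y⁻¹)` (`zc_eq_E1`, `zc_mono`).
-/

open MvPolynomial

noncomputable section

namespace CE

open CMT

variable {n : ℕ} {I : Finset (Fin n)} {u w : Equiv.Perm (Fin n)}

theorem le_mx (y : Equiv.Perm (Fin n)) (k : Fin n) : k.val ≤ mx y k := by
  have h1 : (Finset.univ.filter fun p : Fin n => p ≤ k).card ≤
      (Finset.range (mx y k + 1)).card := by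
    apply Finset.card_le_card_of_injOn (fun p => (y p).val)
    · intro p hp
      have hp' := Finset.mem_coe.1 hp
      rw [Finset.mem_coe, Finset.mem_range, Nat.lt_succ_iff]
      exact Finset.le_sup (f := fun p => (y p).val) hp'
    · intro a _ b _ hab
      exact y.injective (Fin.ext hab)
  have h2 : (Finset.univ.filter fun p : Fin n => p ≤ k) = Finset.Iic k := by
    ext p
    simp
  rw [h2, Fin.card_Iic, Finset.card_range] at h1
  omega

theorem exists_mx (y : Equiv.Perm (Fin n)) (k : Fin n) : ∃ p, p ≤ k ∧ mx y k = (y p).val := by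
  have h1 : (Finset.univ.filter fun p : Fin n => p ≤ k).Nonempty :=
    ⟨k, Finset.mem_filter.2 ⟨Finset.mem_univ k, le_rfl⟩⟩
  obtain ⟨p, hp, h⟩ := Finset.exists_mem_eq_sup _ h1 (fun p => (y p).val)
  exact ⟨p, (Finset.mem_filter.1 hp).2, h⟩

open Classical in
/-- the matrix of the proof of `zero_mem` -/
private def zB (I : Finset (Fin n)) (top : Fin n → ℕ) (x : Fin n → ℂ) :
    Matrix (Fin n) (Fin n) ℂ := fun i j =>
  if ∃ c ∈ I, j.val = top c then (if bk I i = bk I j ∧ i ≤ j then x i else 0)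
  else if i = j then 1 else 0

private theorem zB_upper {top : Fin n → ℕ} {x : Fin n → ℂ}
    (hx' : ∀ c ∈ I, ∀ j : Fin n, j.val = top c → x j ≠ 0) : IsUpper (zB I top x) := by
  refine ⟨fun i j hij => ?_, fun i => ?_⟩
  · unfold zB
    split_ifs with h1 h2 h3
    · exact absurd h2.2 (not_le.2 hij)
    · rfl
    · exact absurd h3 (ne_of_gt hij)
    · rfl
  · unfold zB
    split_ifs with h1 h2 h3
    · obtain ⟨c, hc, h⟩ := h1
      exact hx' c hc i h
    · exact absurd ⟨rfl, le_rfl⟩ h2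
    · exact one_ne_zero
    · exact absurd rfl h3

theorem zero_mem (had : AD u w) (hp : Pres I u) {x : Fin n → ℂ}
    (hx : ∀ j : Fin n, x j ≠ 0 → ∃ c ∈ I, c ≤ j ∧ j.val ≤ min (u c).val (mx w⁻¹ c))
    (hx' : ∀ c ∈ I, ∀ j : Fin n, j.val = min (u c).val (mx w⁻¹ c) → x j ≠ 0)
    {f : MvPolynomial (Low n ⊕ Fin n) ℂ} (hf : f ∈ VI (E1 I u w)) :
    aeval (Sum.elim (fun _ => 0) x : (Low n ⊕ Fin n) → ℂ) f = 0 := by
  set top : Fin n → ℕ := fun c => min (u c).val (mx w⁻¹ c) with htop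
  have h1 : ∀ c ∈ I, c.val ≤ top c ∧ top c < n := by
    intro c hc
    refine ⟨le_min (pres_le hp hc le_rfl) (le_mx w⁻¹ c), ?_⟩
    exact lt_of_le_of_lt (min_le_left _ _) (u c).isLt
  have h2 : ∀ c ∈ I, ∀ c' ∈ I, c < c' → top c < c'.val := by
    intro c hc c' hc' h
    exact lt_of_le_of_lt (min_le_left _ _) (hp c' hc' c h)
  obtain ⟨y, hy1, hy2, hy3⟩ := exists_cyc h1 h2
  have hyu : ble y u := ble_cyc h1 h2 hy1 hy2 hy3 (fun c _ => ⟨c, le_rfl, min_le_left _ _⟩)
  have hyw : ble y w⁻¹ := by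
    apply ble_cyc h1 h2 hy1 hy2 hy3
    intro c _
    obtain ⟨p, hp1, hp2⟩ := exists_mx w⁻¹ c
    exact ⟨p, hp1, hp2 ▸ min_le_right _ _⟩
  have hyw' : ble y⁻¹ w := by
    have h3 := ble_inv hyw
    rwa [inv_inv] at h3
  have hbk : ∀ c ∈ I, ∀ j : Fin n, c ≤ j → j.val ≤ top c → bk I j = bk I c := by
    intro c hc j hj1 hj2
    exact bk_eq_of hj1 (fun c' hc' h => Fin.lt_def.2 (lt_of_le_of_lt hj2 (h2 c hc c' hc' h)))
  have hcy : ∀ c ∈ I, c ≤ y c := by
    intro c hc
    rw [Fin.le_def, hy1 c hc]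
    exact (h1 c hc).1
  have hb : IsUpper (zB I top x) := zB_upper hx'
  have hmem : (Sum.elim (fun _ => 0) x : (Low n ⊕ Fin n) → ℂ) ∈ Zc I y y⁻¹ := by
    refine ⟨zB I top x * permMat ℂ y, ⟨zB I top x, 1, hb, isUpper_one, by rw [Matrix.mul_one]⟩,
      permMat ℂ y⁻¹ * (zB I top x)⁻¹, ⟨1, (zB I top x)⁻¹, isUpper_one, hb.inv, by
        rw [Matrix.one_mul]⟩, fun c => if c ∈ I then 1 else 0, fun j hj => if_neg hj, ?_, ?_⟩
    · show lowMat (fun _ : Low n => (0 : ℂ)) = _
      rw [lowMat_zero, Matrix.mul_assoc, ← Matrix.mul_assoc (permMat ℂ y), permMat_mul_inv,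
        Matrix.one_mul, Matrix.mul_nonsing_inv _ (isUnit_iff_ne_zero.mpr hb.det_ne)]
    · show x = _
      funext i
      show x i = ∑ k, bdg (bk I) (zB I top x * permMat ℂ y) i k * (if k ∈ I then 1 else 0)
      have h3 : ∀ k, bdg (bk I) (zB I top x * permMat ℂ y) i k * (if k ∈ I then 1 else 0) =
          if k ∈ I ∧ bk I i = bk I k ∧ i.val ≤ top k then x i else 0 := by
        intro k
        by_cases hk : k ∈ I
        · rw [if_pos hk, mul_one, bdg_apply, mul_permMat_apply]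
          have h4 : ∃ c ∈ I, (y k).val = top c := ⟨k, hk, hy1 k hk⟩
          have h5 : bk I (y k) = bk I k := hbk k hk (y k) (hcy k hk) (hy1 k hk).le
          have h6 : zB I top x i (y k) = if bk I i = bk I k ∧ i.val ≤ top k then x i else 0 := by
            unfold zB
            rw [if_pos h4]
            simp only [h5, Fin.le_def, hy1 k hk]
          rw [h6]
          by_cases h7 : bk I i = bk I k
          · by_cases h8 : i.val ≤ top k
            · rw [if_pos h7, if_pos ⟨h7, h8⟩, if_pos ⟨hk, h7, h8⟩]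
            · rw [if_pos h7, if_neg (fun h => h8 h.2), if_neg (fun h => h8 h.2.2)]
          · rw [if_neg h7, if_neg (fun h => h7 h.2.1)]
        · rw [if_neg hk, mul_zero, if_neg (fun h => hk h.1)]
      rw [Finset.sum_congr rfl (fun k _ => h3 k)]
      by_cases hxi : x i = 0
      · rw [hxi]
        symm
        apply Finset.sum_eq_zero
        intro k _
        rw [ite_self]
      · obtain ⟨c, hc, hc1, hc2⟩ := hx i hxi
        have h9 : bk I i = bk I c := hbk c hc i hc1 hc2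
        rw [Finset.sum_eq_single c]
        · rw [if_pos ⟨hc, h9, hc2⟩]
        · intro k _ hkc
          rw [if_neg]
          rintro ⟨hk, h10, -⟩
          exact hkc (bk_inj hk hc (h10.symm.trans h9))
        · intro h
          exact absurd (Finset.mem_univ c) h
  have hf' : f ∈ VI (Zc I y y⁻¹) := by
    apply zc_mono hyu hyw'
    rw [zc_eq_E1 had hp]
    exact hf
  rw [mem_vanishingIdeal_iff] at hf'
  exact hf' _ hmem

end CE
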